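import Pool.Agent.Lib.SD.CATDefs

/-! Geodesics in complete metric spaces with Bruhat-Tits midpoints. -/

noncomputable section

open Set Filter Topology

namespace Pool.Agent.Lib.CAT0

open Pool.Agent.Lib.SD

variable {X : Type} [MetricSpace X]

/-- `g` is the point at ratio `t` between `a` and `b`. -/
def IsGeo (a b : X) (t : ℝ) (g : X) : Prop :=
  ∀ z, dist z g ^ 2 ≤ (1 - t) * dist z a ^ 2 + t * dist z b ^ 2 - t * (1 - t) * dist a b ^ 2

lemma le_of_sq {x y : ℝ} (hy : 0 ≤ y) (h : x ^ 2 ≤ y ^ 2) : x ≤ y :=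
  (le_abs_self _).trans (abs_le_of_sq_le_sq h hy)

lemma IsGeo.left {a b g : X} {t : ℝ} (h : IsGeo a b t g) (ht : t ∈ Icc (0 : ℝ) 1) :
    dist a g ≤ t * dist a b := by
  have h1 := h a
  rw [dist_self] at h1
  exact le_of_sq (mul_nonneg ht.1 dist_nonneg) (by nlinarith)

lemma IsGeo.right {a b g : X} {t : ℝ} (h : IsGeo a b t g) (ht : t ∈ Icc (0 : ℝ) 1) :
    dist g b ≤ (1 - t) * dist a b := by
  have h1 := h b
  rw [dist_self, dist_comm b a, dist_comm b g] at h1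
  exact le_of_sq (mul_nonneg (sub_nonneg.2 ht.2) dist_nonneg) (by nlinarith)

lemma IsGeo.dist_le {a b g g' : X} {s t : ℝ} (h : IsGeo a b s g) (hs : s ∈ Icc (0 : ℝ) 1)
    (h' : IsGeo a b t g') (ht : t ∈ Icc (0 : ℝ) 1) : dist g g' ≤ |s - t| * dist a b := by
  have h1 := h' g
  have h2 := h.left hs
  have h3 := h.right hs
  rw [dist_comm] at h2
  have h4 : dist g a ^ 2 ≤ (s * dist a b) ^ 2 := pow_le_pow_left₀ dist_nonneg h2 2
  have h5 : dist g b ^ 2 ≤ ((1 - s) * dist a b) ^ 2 := pow_le_pow_left₀ dist_nonneg h3 2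
  refine le_of_sq (by positivity) ?_
  rw [mul_pow, sq_abs]
  nlinarith [mul_le_mul_of_nonneg_left h4 (sub_nonneg.2 ht.2), mul_le_mul_of_nonneg_left h5 ht.1]

lemma IsGeo.eq_of_le {a b g p : X} {t : ℝ} (h : IsGeo a b t g) (ht : t ∈ Icc (0 : ℝ) 1)
    (h2 : dist a p ≤ t * dist a b) (h3 : dist p b ≤ (1 - t) * dist a b) : p = g := by
  have h1 := h p
  rw [dist_comm] at h2
  have h4 : dist p a ^ 2 ≤ (t * dist a b) ^ 2 := pow_le_pow_left₀ dist_nonneg h2 2
  have h5 : dist p b ^ 2 ≤ ((1 - t) * dist a b) ^ 2 := pow_le_pow_left₀ dist_nonneg h3 2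
  have h6 : dist p g ^ 2 ≤ 0 ^ 2 := by
    nlinarith [mul_le_mul_of_nonneg_left h4 (sub_nonneg.2 ht.2), mul_le_mul_of_nonneg_left h5 ht.1]
  exact dist_le_zero.1 (le_of_sq le_rfl h6)

lemma isGeo_mid (hX : HasCNMidpoints X) {a b g g' : X} {s t : ℝ} (h : IsGeo a b s g)
    (hs : s ∈ Icc (0 : ℝ) 1) (h' : IsGeo a b t g') (ht : t ∈ Icc (0 : ℝ) 1) (hst : s ≤ t) :
    ∃ m, IsGeo a b ((s + t) / 2) m := by
  obtain ⟨m, hm⟩ := hX g g'
  refine ⟨m, fun z => ?_⟩
  have h1 : (t - s) * dist a b ≤ dist g g' := by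
    linarith [dist_triangle4 a g g' b, h.left hs, h'.right ht]
  have h2 := pow_le_pow_left₀ (mul_nonneg (sub_nonneg.2 hst) dist_nonneg) h1 2
  nlinarith [hm z, h z, h' z]

lemma isClosed_geo [CompleteSpace X] (a b : X) :
    IsClosed {t ∈ Icc (0 : ℝ) 1 | ∃ g, IsGeo a b t g} := by
  refine isClosed_of_closure_subset fun t ht => ?_
  obtain ⟨u, hu, hl⟩ := mem_closure_iff_seq_limit.1 ht
  choose h1 g hg using hu
  have hc : CauchySeq g := by
    have h2 := (hl.mul_const (dist a b)).cauchySeq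
    rw [Metric.cauchySeq_iff] at h2 ⊢
    intro ε hε
    obtain ⟨N, hN⟩ := h2 ε hε
    refine ⟨N, fun m hm n hn => ((hg m).dist_le (h1 m) (hg n) (h1 n)).trans_lt ?_⟩
    have h3 := hN m hm n hn
    rwa [Real.dist_eq, ← sub_mul, abs_mul, abs_of_nonneg dist_nonneg] at h3
  obtain ⟨p, hp⟩ := cauchySeq_tendsto_of_complete hc
  refine ⟨isClosed_Icc.mem_of_tendsto hl (Eventually.of_forall h1), p, fun z => ?_⟩
  refine le_of_tendsto_of_tendsto' ((tendsto_const_nhds.dist hp).pow 2) ?_ fun n => hg n z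
  exact (((tendsto_const_nhds.sub hl).mul_const _).add (hl.mul_const _)).sub
    ((hl.mul (tendsto_const_nhds.sub hl)).mul_const _)

theorem exists_geo [CompleteSpace X] (hX : HasCNMidpoints X) (a b : X) {t : ℝ}
    (ht : t ∈ Icc (0 : ℝ) 1) : ∃ g, IsGeo a b t g := by
  set T := {t ∈ Icc (0 : ℝ) 1 | ∃ g, IsGeo a b t g} with hT
  have h0 : (0 : ℝ) ∈ T := ⟨⟨le_rfl, zero_le_one⟩, a, fun z => by simp⟩
  have h1 : (1 : ℝ) ∈ T := ⟨⟨zero_le_one, le_rfl⟩, b, fun z => by simp⟩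
  have c1 : IsCompact (T ∩ Icc 0 t) := isCompact_Icc.inter_left (isClosed_geo a b)
  have c2 : IsCompact (T ∩ Icc t 1) := isCompact_Icc.inter_left (isClosed_geo a b)
  obtain ⟨s, ⟨⟨s1, g, s2⟩, s3⟩, s4⟩ := c1.exists_isGreatest ⟨0, h0, le_rfl, ht.1⟩
  obtain ⟨u, ⟨⟨u1, g', u2⟩, u3⟩, u4⟩ := c2.exists_isLeast ⟨1, h1, ht.2, le_rfl⟩
  obtain ⟨m, hm⟩ := isGeo_mid hX s2 s1 u2 u1 (s3.2.trans u3.1)
  have h2 : (s + u) / 2 ∈ T := ⟨⟨by linarith [s1.1, u1.1], by linarith [s1.2, u1.2]⟩, m, hm⟩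
  rcases le_total ((s + u) / 2) t with h | h
  · have h3 := s4 ⟨h2, h2.1.1, h⟩
    have h4 : s = t := by linarith [s3.2, u3.1]
    exact ⟨g, h4 ▸ s2⟩
  · have h3 := u4 ⟨h2, h, h2.1.2⟩
    have h4 : u = t := by linarith [s3.2, u3.1]
    exact ⟨g', h4 ▸ u2⟩

variable [CompleteSpace X] (hX : HasCNMidpoints X)

/-- The point at ratio `t` (clamped to the unit interval) on the geodesic from `a` to `b`. -/
def geo (a b : X) (t : ℝ) : X :=
  (exists_geo hX a b (projIcc (0 : ℝ) 1 zero_le_one t).2).choose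

lemma isGeo_geo (a b : X) {t : ℝ} (ht : t ∈ Icc (0 : ℝ) 1) : IsGeo a b t (geo hX a b t) := by
  have h : IsGeo a b (projIcc (0 : ℝ) 1 zero_le_one t) (geo hX a b t) :=
    (exists_geo hX a b (projIcc (0 : ℝ) 1 zero_le_one t).2).choose_spec
  rwa [projIcc_of_mem _ ht] at h

lemma geo_sq (a b z : X) {t : ℝ} (ht : t ∈ Icc (0 : ℝ) 1) : dist z (geo hX a b t) ^ 2 ≤
    (1 - t) * dist z a ^ 2 + t * dist z b ^ 2 - t * (1 - t) * dist a b ^ 2 :=
  isGeo_geo hX a b ht z

lemma eq_geo {a b p : X} {t : ℝ} (ht : t ∈ Icc (0 : ℝ) 1) (h2 : dist a p ≤ t * dist a b)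
    (h3 : dist p b ≤ (1 - t) * dist a b) : p = geo hX a b t :=
  (isGeo_geo hX a b ht).eq_of_le ht h2 h3

lemma dist_left_geo (a b : X) {t : ℝ} (ht : t ∈ Icc (0 : ℝ) 1) :
    dist a (geo hX a b t) = t * dist a b := by
  linarith [(isGeo_geo hX a b ht).left ht, (isGeo_geo hX a b ht).right ht,
    dist_triangle a (geo hX a b t) b]

lemma dist_geo_right (a b : X) {t : ℝ} (ht : t ∈ Icc (0 : ℝ) 1) :
    dist (geo hX a b t) b = (1 - t) * dist a b := by
  linarith [(isGeo_geo hX a b ht).left ht, (isGeo_geo hX a b ht).right ht,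
    dist_triangle a (geo hX a b t) b]

lemma dist_geo_geo (a b : X) {s t : ℝ} (hs : s ∈ Icc (0 : ℝ) 1) (ht : t ∈ Icc (0 : ℝ) 1) :
    dist (geo hX a b s) (geo hX a b t) = |s - t| * dist a b := by
  refine le_antisymm ((isGeo_geo hX a b hs).dist_le hs (isGeo_geo hX a b ht) ht) ?_
  have h1 := abs_dist_sub_le (geo hX a b s) (geo hX a b t) b
  rw [dist_geo_right hX a b hs, dist_geo_right hX a b ht, ← sub_mul, abs_mul,
    abs_of_nonneg dist_nonneg, show 1 - s - (1 - t) = t - s by ring, abs_sub_comm] at h1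
  exact h1

@[simp] lemma geo_zero (a b : X) : geo hX a b 0 = a :=
  (eq_geo hX ⟨le_rfl, zero_le_one⟩ (by simp) (by simp)).symm

@[simp] lemma geo_one (a b : X) : geo hX a b 1 = b :=
  (eq_geo hX ⟨zero_le_one, le_rfl⟩ (by simp) (by simp)).symm

lemma geo_self (a : X) {t : ℝ} (ht : t ∈ Icc (0 : ℝ) 1) : geo hX a a t = a :=
  (eq_geo hX ht (by simp) (by simp)).symm

lemma geo_symm (a b : X) {t : ℝ} (ht : t ∈ Icc (0 : ℝ) 1) :
    geo hX b a (1 - t) = geo hX a b t := by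
  have h : 1 - t ∈ Icc (0 : ℝ) 1 := ⟨sub_nonneg.2 ht.2, by linarith [ht.1]⟩
  refine eq_geo hX ht ?_ ?_
  · rw [dist_comm, dist_geo_right hX b a h, dist_comm b a, sub_sub_cancel]
  · rw [dist_comm, dist_left_geo hX b a h, dist_comm b a]

lemma geo_map {f : X → X} (hf : Isometry f) (a b : X) {t : ℝ} (ht : t ∈ Icc (0 : ℝ) 1) :
    f (geo hX a b t) = geo hX (f a) (f b) t := by
  refine eq_geo hX ht ?_ ?_
  · rw [hf.dist_eq, hf.dist_eq, dist_left_geo hX a b ht]
  · rw [hf.dist_eq, hf.dist_eq, dist_geo_right hX a b ht]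

lemma smul_geo {Γ : Type} [Group Γ] [MulAction Γ X] [IsIsometricSMul Γ X] (g : Γ) (a b : X)
    {t : ℝ} (ht : t ∈ Icc (0 : ℝ) 1) : g • geo hX a b t = geo hX (g • a) (g • b) t :=
  geo_map hX (isometry_smul X g) a b ht

/-- Distance to a point is convex along geodesics. -/
lemma dist_geo_le (a b z : X) {t : ℝ} (ht : t ∈ Icc (0 : ℝ) 1) :
    dist z (geo hX a b t) ≤ (1 - t) * dist z a + t * dist z b := by
  have h0 := sub_nonneg.2 ht.2
  have h1 := geo_sq hX a b z ht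
  have h2 := abs_dist_sub_le a b z
  rw [dist_comm a z, dist_comm b z] at h2
  have h3 := pow_le_pow_left₀ (abs_nonneg _) h2 2
  rw [sq_abs] at h3
  refine le_of_sq (add_nonneg (mul_nonneg h0 dist_nonneg) (mul_nonneg ht.1 dist_nonneg)) ?_
  nlinarith [mul_le_mul_of_nonneg_left h3 (mul_nonneg ht.1 h0)]

lemma dist_geo_same (a b c : X) {t : ℝ} (ht : t ∈ Icc (0 : ℝ) 1) :
    dist (geo hX a b t) (geo hX a c t) ≤ t * dist b c := by
  have h1 := geo_sq hX a c (geo hX a b t) ht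
  have h2 := geo_sq hX a b c ht
  rw [dist_comm _ a, dist_left_geo hX a b ht, dist_comm _ c] at h1
  rw [dist_comm c a, dist_comm c b] at h2
  refine le_of_sq (mul_nonneg ht.1 dist_nonneg) ?_
  nlinarith [mul_le_mul_of_nonneg_left h2 ht.1]

/-- The distance between two geodesics is convex. -/
lemma dist_geo_two (a b c d : X) {t : ℝ} (ht : t ∈ Icc (0 : ℝ) 1) :
    dist (geo hX a b t) (geo hX c d t) ≤ (1 - t) * dist a c + t * dist b d := by
  have h : 1 - t ∈ Icc (0 : ℝ) 1 := ⟨sub_nonneg.2 ht.2, by linarith [ht.1]⟩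
  have h1 := dist_geo_same hX b a c h
  rw [geo_symm hX a b ht, geo_symm hX c b ht] at h1
  linarith [dist_geo_same hX c b d ht, dist_triangle (geo hX a b t) (geo hX c b t) (geo hX c d t)]

lemma dist_geo_two' (a b c d : X) {s t : ℝ} (hs : s ∈ Icc (0 : ℝ) 1) (ht : t ∈ Icc (0 : ℝ) 1) :
    dist (geo hX a b s) (geo hX c d t) ≤
      (1 - s) * dist a c + s * dist b d + |s - t| * dist c d := by
  linarith [dist_geo_two hX a b c d hs, dist_geo_geo hX c d hs ht,
    dist_triangle (geo hX a b s) (geo hX c d s) (geo hX c d t)]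

include hX in
/-- The quadrilateral inequality. -/
theorem quad (y y' a b : X) : dist y a ^ 2 + dist y' b ^ 2 - dist y b ^ 2 - dist y' a ^ 2 ≤
    2 * dist y y' * dist a b := by
  rcases (dist_nonneg (x := y) (y := y')).eq_or_lt with h | h1
  · obtain rfl := dist_eq_zero.1 h.symm
    simp
  rcases (dist_nonneg (x := a) (y := b)).eq_or_lt with h | h2
  · obtain rfl := dist_eq_zero.1 h.symm
    simp
  set α := dist y y' with hα
  set β := dist a b with hβ
  have h3 : 0 < α + β := by positivity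
  set t := α / (α + β) with ht
  have e1 : t * (α + β) = α := div_mul_cancel₀ _ h3.ne'
  have t0 : 0 < t := by positivity
  have t1 : t < 1 := (div_lt_one h3).2 (by linarith)
  have hI : t ∈ Icc (0 : ℝ) 1 := ⟨t0.le, t1.le⟩
  have h4 := geo_sq hX y a (geo hX y' b t) hI
  have h5 := geo_sq hX y' b y hI
  have h6 := geo_sq hX y' b a hI
  rw [dist_comm _ y, dist_comm _ a] at h4
  rw [dist_comm a y', ← hβ] at h6
  rw [← hα] at h5
  have e2 : (1 - t) * α = t * β := by linarith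
  have h7 : t * (1 - t) * (dist y a ^ 2 + dist y' b ^ 2 - dist y b ^ 2 - dist y' a ^ 2) ≤
      ((1 - t) * α) ^ 2 + (t * β) ^ 2 := by
    nlinarith [mul_le_mul_of_nonneg_left h5 (sub_nonneg.2 t1.le),
      mul_le_mul_of_nonneg_left h6 t0.le, sq_nonneg (dist (geo hX y' b t) (geo hX y a t))]
  have h8 : ((1 - t) * α) ^ 2 + (t * β) ^ 2 = t * (1 - t) * (2 * α * β) := by
    calc _ = ((1 - t) * α) * ((1 - t) * α) + (t * β) * (t * β) := by ring
      _ = ((1 - t) * α) * (t * β) + ((1 - t) * α) * (t * β) := by rw [← e2]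
      _ = _ := by ring
  rw [h8] at h7
  exact le_of_mul_le_mul_left h7 (mul_pos t0 (sub_pos.2 t1))

include hX in
/-- The four point bound. -/
theorem four (y y' a b : X) : |dist y a - dist y b - dist y' a + dist y' b| *
    (dist y a + dist y b) ≤ 4 * dist y y' * dist a b := by
  have h1 := quad hX y y' a b
  have h2 := quad hX y y' b a
  rw [dist_comm b a] at h2
  have h3 := abs_dist_sub_le a b y'
  have h4 := abs_dist_sub_le y y' a
  have h5 := abs_dist_sub_le y y' b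
  rw [dist_comm a y', dist_comm b y'] at h3
  have h6 : |dist y' a + dist y' b - (dist y a + dist y b)| ≤ 2 * dist y y' := by
    rw [abs_le] at h4 h5 ⊢
    constructor <;> linarith [h4.1, h4.2, h5.1, h5.2]
  have h7 := mul_le_mul h3 h6 (abs_nonneg _) dist_nonneg
  rw [← abs_mul, abs_le] at h7
  rw [← abs_of_nonneg (add_nonneg (dist_nonneg (x := y) (y := a)) (dist_nonneg (x := y) (y := b))),
    ← abs_mul, abs_le]
  constructor <;> nlinarith [h7.1, h7.2]

end Pool.Agent.Lib.CAT0
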