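import Pool.Agent.Lib.CAT0.Basic

/-! Nearest points, intersections of balls and barycentres. -/

noncomputable section

open Set Filter Topology

namespace Pool.Agent.Lib.CAT0

open Pool.Agent.Lib.SD

variable {X : Type} [MetricSpace X]

/-- A uniformly convex function on a closed set attains its minimum. -/
theorem exists_min [CompleteSpace X] {U : Set X} (hU : IsClosed U) (hne : U.Nonempty) {f : X → ℝ}
    (hf : Continuous f) (h0 : ∀ z ∈ U, 0 ≤ f z) {c : ℝ} (hc : 0 < c)
    (hm : ∀ a ∈ U, ∀ b ∈ U, ∃ m ∈ U, f m ≤ (f a + f b) / 2 - c * dist a b ^ 2) :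
    ∃ p ∈ U, ∀ z ∈ U, f p ≤ f z := by
  have hb : BddBelow (f '' U) := ⟨0, by rintro _ ⟨z, hz, rfl⟩; exact h0 z hz⟩
  obtain ⟨u, -, hu, hu'⟩ := exists_seq_tendsto_sInf (hne.image f) hb
  choose x hx hx' using hu'
  have hI : ∀ z ∈ U, sInf (f '' U) ≤ f z := fun z hz => csInf_le hb ⟨z, hz, rfl⟩
  have hC : CauchySeq x := by
    rw [Metric.cauchySeq_iff]
    intro ε hε
    obtain ⟨N, hN⟩ := eventually_atTop.1 (hu.eventually_lt_const
      (show sInf (f '' U) < sInf (f '' U) + c * ε ^ 2 from lt_add_of_pos_right _ (by positivity)))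
    refine ⟨N, fun m h1 n h2 => ?_⟩
    obtain ⟨q, hq, h3⟩ := hm _ (hx m) _ (hx n)
    have h4 := hI q hq
    rw [hx', hx'] at h3
    have h5 : c * dist (x m) (x n) ^ 2 < c * ε ^ 2 := by linarith [hN m h1, hN n h2]
    exact lt_of_pow_lt_pow_left₀ 2 hε.le (lt_of_mul_lt_mul_left h5 hc.le)
  obtain ⟨p, hp⟩ := cauchySeq_tendsto_of_complete hC
  refine ⟨p, hU.mem_of_tendsto hp (Eventually.of_forall hx), fun z hz => ?_⟩
  have h1 : Tendsto u atTop (𝓝 (f p)) := ((hf.tendsto p).comp hp).congr hx'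
  rw [tendsto_nhds_unique h1 hu]
  exact hI z hz

/-- `p` is a nearest point of `U` to `y`. -/
def IsProj (U : Set X) (y p : X) : Prop := p ∈ U ∧ ∀ z ∈ U, dist y p ≤ dist y z

lemma IsProj.mono {U V : Set X} {y p : X} (h : IsProj U y p) (hV : V ⊆ U) (hp : p ∈ V) :
    IsProj V y p := ⟨hp, fun z hz => h.2 z (hV hz)⟩

lemma isProj_self {U : Set X} {y : X} (h : y ∈ U) : IsProj U y y := ⟨h, fun z _ => by simp⟩

lemma IsProj.dist_sub_le {U : Set X} {y y' p p' : X} (h : IsProj U y p) (h' : IsProj U y' p') :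
    |dist y p - dist y' p'| ≤ dist y y' := by
  rw [abs_le]
  constructor
  · linarith [h'.2 p h.1, dist_triangle y' y p, dist_comm y y']
  · linarith [h.2 p' h'.1, dist_triangle y y' p']

/-- The intersection of the closed balls of radius `R` with centres `c v`, `v ∈ σ`. -/
def Lens {ι : Type} (c : ι → X) (R : ℝ) (σ : Finset ι) : Set X := {z | ∀ v ∈ σ, dist z (c v) ≤ R}

lemma isClosed_lens {ι : Type} (c : ι → X) (R : ℝ) (σ : Finset ι) : IsClosed (Lens c R σ) := by
  have h : Lens c R σ = ⋂ v ∈ σ, Metric.closedBall (c v) R := by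
    ext z
    simp [Lens]
  rw [h]
  exact isClosed_biInter fun v _ => Metric.isClosed_closedBall

lemma lens_anti {ι : Type} (c : ι → X) (R : ℝ) {σ τ : Finset ι} (h : σ ⊆ τ) :
    Lens c R τ ⊆ Lens c R σ := fun _ hz v hv => hz v (h hv)

lemma lens_diam {ι : Type} {c : ι → X} {R : ℝ} {σ : Finset ι} (hσ : σ.Nonempty) {a b : X}
    (ha : a ∈ Lens c R σ) (hb : b ∈ Lens c R σ) : dist a b ≤ 2 * R := by
  obtain ⟨v, hv⟩ := hσ
  linarith [ha v hv, hb v hv, dist_triangle_right a b (c v)]

variable [CompleteSpace X] (hX : HasCNMidpoints X)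

/-- Geodesically convex sets. -/
def IsCvx (U : Set X) : Prop := ∀ a ∈ U, ∀ b ∈ U, ∀ t ∈ Icc (0 : ℝ) 1, geo hX a b t ∈ U

lemma half_mem : (1 / 2 : ℝ) ∈ Icc (0 : ℝ) 1 := ⟨by norm_num, by norm_num⟩

variable {hX}

theorem exists_isProj {U : Set X} (hU : IsClosed U) (hc : IsCvx hX U) (hne : U.Nonempty) (y : X) :
    ∃ p, IsProj U y p := by
  obtain ⟨p, h1, h2⟩ := exists_min hU hne (f := fun z => dist y z ^ 2) (by fun_prop)
    (fun z _ => by positivity) (c := 1 / 4) (by norm_num) fun a ha b hb =>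
      ⟨_, hc a ha b hb _ half_mem, by linarith [geo_sq hX a b y half_mem]⟩
  exact ⟨p, h1, fun z hz => le_of_sq dist_nonneg (h2 z hz)⟩

theorem IsProj.pyth {U : Set X} {y p z : X} (h : IsProj U y p) (hc : IsCvx hX U) (hz : z ∈ U) :
    dist y p ^ 2 + dist p z ^ 2 ≤ dist y z ^ 2 := by
  have h1 : ∀ t ∈ Ioo (0 : ℝ) 1, dist y p ^ 2 + (1 - t) * dist p z ^ 2 ≤ dist y z ^ 2 := by
    intro t ht
    have hI := Ioo_subset_Icc_self ht
    have h2 := pow_le_pow_left₀ dist_nonneg (h.2 _ (hc p h.1 z hz t hI)) 2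
    have h3 := geo_sq hX p z y hI
    exact le_of_mul_le_mul_left (by linarith) ht.1
  have h2 : Tendsto (fun t : ℝ => dist y p ^ 2 + (1 - t) * dist p z ^ 2) (𝓝[>] 0)
      (𝓝 (dist y p ^ 2 + (1 - 0) * dist p z ^ 2)) :=
    (Continuous.tendsto (by fun_prop) 0).mono_left nhdsWithin_le_nhds
  rw [sub_zero, one_mul] at h2
  exact le_of_tendsto h2 (mem_of_superset (Ioo_mem_nhdsGT one_pos) h1)

theorem IsProj.lip {U : Set X} {y y' p p' : X} (h : IsProj U y p) (h' : IsProj U y' p')
    (hc : IsCvx hX U) : dist p p' ≤ dist y y' := by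
  have h1 := h.pyth hc h'.1
  have h2 := h'.pyth hc h.1
  have h3 := quad hX y y' p' p
  rw [dist_comm p' p] at h2 h3
  rcases (dist_nonneg (x := p) (y := p')).eq_or_lt with h4 | h4
  · rw [← h4]
    exact dist_nonneg
  · exact le_of_mul_le_mul_right (by nlinarith) h4

theorem IsProj.unique {U : Set X} {y p p' : X} (h : IsProj U y p) (h' : IsProj U y p')
    (hc : IsCvx hX U) : p = p' := by
  have h1 := h.lip h' hc
  rwa [dist_self, dist_le_zero] at h1

/-- A local nearest point of a convex set is a nearest point. -/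
theorem IsProj.of_local {U V : Set X} {y p : X} (h : IsProj U y p) (hc : IsCvx hX V) (hp : p ∈ V)
    {ε : ℝ} (hε : 0 < ε) (hl : ∀ z ∈ V, dist p z ≤ ε → z ∈ U) : IsProj V y p := by
  refine ⟨hp, fun z hz => ?_⟩
  have h0 : 0 < ε + dist p z := by positivity
  have h1 : 0 < ε / (ε + dist p z) := by positivity
  have hI : ε / (ε + dist p z) ∈ Icc (0 : ℝ) 1 :=
    ⟨h1.le, (div_le_one h0).2 (le_add_of_nonneg_right dist_nonneg)⟩
  have h2 := h.2 _ (hl _ (hc p hp z hz _ hI) (by
    rw [dist_left_geo hX p z hI, div_mul_eq_mul_div, div_le_iff₀ h0]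
    nlinarith))
  have h3 := dist_geo_le hX p z y hI
  exact le_of_mul_le_mul_left (by linarith) h1

variable (hX)

lemma isCvx_lens {ι : Type} (c : ι → X) (R : ℝ) (σ : Finset ι) : IsCvx hX (Lens c R σ) := by
  intro a ha b hb t ht v hv
  have h1 := dist_geo_le hX a b (c v) ht
  rw [dist_comm (c v) a, dist_comm (c v) b, dist_comm] at h1
  nlinarith [mul_le_mul_of_nonneg_left (ha v hv) (sub_nonneg.2 ht.2),
    mul_le_mul_of_nonneg_left (hb v hv) ht.1]

lemma lens_mid {ι : Type} {c : ι → X} {R : ℝ} (hR : 0 < R) {σ : Finset ι} {a b q : X}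
    (ha : a ∈ Lens c R σ) (hb : b ∈ Lens c R σ)
    (hq : dist (geo hX a b (1 / 2)) q ≤ dist a b ^ 2 / (8 * R)) : q ∈ Lens c R σ := by
  intro v hv
  have h1 := geo_sq hX a b (c v) half_mem
  have h2 := pow_le_pow_left₀ dist_nonneg (ha v hv) 2
  have h3 := pow_le_pow_left₀ dist_nonneg (hb v hv) 2
  rw [dist_comm] at h2 h3
  have h4 : 2 * R * dist (c v) (geo hX a b (1 / 2)) ≤ 2 * R * R - dist a b ^ 2 / 4 := by
    nlinarith [sq_nonneg (R - dist (c v) (geo hX a b (1 / 2)))]
  rw [le_div_iff₀ (by positivity)] at hq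
  have h5 := dist_triangle (c v) (geo hX a b (1 / 2)) q
  rw [dist_comm]
  refine le_of_mul_le_mul_left ?_ (show 0 < 2 * R by positivity)
  nlinarith

variable {hX}

include hX in
/-- Quadratic growth of the distance near the nearest point of an intersection of balls. -/
theorem IsProj.lens_gap {ι : Type} {c : ι → X} {R : ℝ} (hR : 0 < R) {σ : Finset ι} {y p z : X}
    (h : IsProj (Lens c R σ) y p) (hz : z ∈ Lens c R σ) (hy : y ∉ Lens c R σ) :
    dist y p + dist p z ^ 2 / (4 * R) ≤ dist y z := by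
  set m := geo hX p z (1 / 2) with hm
  set δ := dist p z ^ 2 / (8 * R) with hδ
  have δ0 : 0 ≤ δ := by positivity
  have h1 : δ < dist m y := not_le.1 fun h1 => hy (lens_mid hX hR h.1 hz h1)
  have h2 := δ0.trans_lt h1
  have hI : δ / dist m y ∈ Icc (0 : ℝ) 1 := ⟨by positivity, (div_le_one h2).2 h1.le⟩
  have h3 := h.2 _ (lens_mid hX hR h.1 hz (q := geo hX m y (δ / dist m y)) (by
    rw [dist_left_geo hX m y hI, div_mul_cancel₀ _ h2.ne']))
  rw [dist_comm y (geo hX m y _), dist_geo_right hX m y hI, sub_mul, div_mul_cancel₀ _ h2.ne',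
    dist_comm m y] at h3
  have h4 := dist_geo_le hX p z y half_mem
  have h5 : dist p z ^ 2 / (4 * R) = 2 * δ := by
    rw [hδ]
    field_simp
    ring
  linarith

include hX in
theorem IsProj.lens_gap' {ι : Type} {c : ι → X} {R : ℝ} (hR : 0 < R) {σ : Finset ι} {y p z : X}
    (h : IsProj (Lens c R σ) y p) (hz : z ∈ Lens c R σ) :
    dist y p + min (dist p z) (dist p z ^ 2 / (4 * R)) ≤ dist y z := by
  by_cases hy : y ∈ Lens c R σ
  · obtain rfl := h.unique (isProj_self hy) (isCvx_lens hX c R σ)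
    rw [dist_self, zero_add]
    exact min_le_left _ _
  · linarith [h.lens_gap (hX := hX) hR hz hy, min_le_right (dist p z) (dist p z ^ 2 / (4 * R))]

include hX in
/-- The nearest points of two points far away are close. -/
theorem IsProj.lens_close {ι : Type} {c : ι → X} {R : ℝ} (hR : 0 < R) {σ : Finset ι}
    {y y' p p' : X} (h : IsProj (Lens c R σ) y p) (h' : IsProj (Lens c R σ) y' p') :
    dist p p' * dist y p ≤ 8 * R * dist y y' := by
  by_cases hy : y ∈ Lens c R σ
  · obtain rfl := h.unique (isProj_self hy) (isCvx_lens hX c R σ)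
    rw [dist_self, mul_zero]
    positivity
  rcases (dist_nonneg (x := p) (y := p')).eq_or_lt with h4 | h4
  · rw [← h4, zero_mul]
    positivity
  have h1 := h.lens_gap (hX := hX) hR h'.1 hy
  have h2 := h'.2 p h.1
  have h3 := four hX y y' p' p
  have h5 : dist p p' ^ 2 / (4 * R) ≤ |dist y p' - dist y p - dist y' p' + dist y' p| :=
    le_trans (by linarith) (le_abs_self _)
  have h6 := mul_le_mul h5 (show 2 * dist y p ≤ dist y p' + dist y p by linarith [h.2 p' h'.1])
    (by positivity) (abs_nonneg _)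
  have h7 := h6.trans h3
  rw [dist_comm p' p, div_mul_eq_mul_div, div_le_iff₀ (by positivity)] at h7
  exact le_of_mul_le_mul_left (by nlinarith) h4

include hX in
/-- Removing an inactive ball does not change the nearest point. -/
theorem IsProj.lens_erase {ι : Type} [DecidableEq ι] {c : ι → X} {R : ℝ} {σ : Finset ι} {y p : X}
    (h : IsProj (Lens c R σ) y p) {a : ι} (ha : dist p (c a) < R) :
    IsProj (Lens c R (σ.erase a)) y p := by
  refine h.of_local (isCvx_lens hX c R _) (lens_anti c R (Finset.erase_subset a σ) h.1)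
    (sub_pos.2 ha) fun z hz hd v hv => ?_
  by_cases hva : v = a
  · subst hva
    linarith [dist_triangle z p (c v), dist_comm z p]
  · exact hz v (Finset.mem_erase.2 ⟨hva, hv⟩)

omit [CompleteSpace X] in
lemma IsProj.lens_insert {ι : Type} [DecidableEq ι] {c : ι → X} {R : ℝ} {σ : Finset ι} {y p : X}
    (h : IsProj (Lens c R σ) y p) {a : ι} (ha : dist p (c a) ≤ R) :
    IsProj (Lens c R (insert a σ)) y p := by
  refine h.mono (lens_anti c R (Finset.subset_insert a σ)) fun v hv => ?_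
  rcases Finset.mem_insert.1 hv with rfl | hv
  exacts [ha, h.1 v hv]

include hX in
/-- From any point of an intersection of balls a step of length at most one gains distance. -/
theorem IsProj.lens_step {ι : Type} {c : ι → X} {R : ℝ} (hR : 1 ≤ R) {σ : Finset ι} {y p z : X}
    (h : IsProj (Lens c R σ) y p) (hz : z ∈ Lens c R σ) : ∃ q ∈ Lens c R σ, dist z q ≤ 1 ∧
      dist y q + min 1 (dist z p) ^ 2 / (4 * R) ≤ dist y z := by
  rcases (dist_nonneg (x := z) (y := p)).eq_or_lt with h0 | h0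
  · exact ⟨z, hz, by simp, by simp [← h0]⟩
  have hR0 : 0 < R := by linarith
  have h1 := h.lens_gap' (hX := hX) hR0 hz
  rw [dist_comm p z] at h1
  set L := dist z p with hL
  set μ := min 1 L with hμ
  have m0 : 0 < μ := lt_min one_pos h0
  have m1 : μ ≤ 1 := min_le_left _ _
  have m2 : μ ≤ L := min_le_right _ _
  have hI : μ / L ∈ Icc (0 : ℝ) 1 := ⟨by positivity, (div_le_one h0).2 m2⟩
  refine ⟨_, isCvx_lens hX c R σ z hz p h.1 _ hI, ?_, ?_⟩
  · rw [dist_left_geo hX z p hI, div_mul_cancel₀ _ h0.ne']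
    exact m1
  · have h2 := dist_geo_le hX z p y hI
    have h3 : L * μ / (4 * R) ≤ min L (L ^ 2 / (4 * R)) := by
      refine le_min ?_ (div_le_div_of_nonneg_right (by nlinarith) (by positivity))
      rw [div_le_iff₀ (by positivity)]
      exact mul_le_mul_of_nonneg_left (by linarith) h0.le
    have h4 : μ ^ 2 / (4 * R) = μ / L * (L * μ / (4 * R)) := by field_simp
    have h5 := mul_le_mul_of_nonneg_left (show L * μ / (4 * R) ≤ dist y z - dist y p by linarith)
      hI.1
    linarith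

variable (hX)

/-- The point at distance `min s (dist p y)` from `p` on the geodesic from `p` to `y`. -/
def toward (p y : X) (s : ℝ) : X := geo hX p y (min 1 (s / dist p y))

omit [CompleteSpace X] in
lemma ratio_mem (p y : X) {s : ℝ} (hs : 0 ≤ s) : min 1 (s / dist p y) ∈ Icc (0 : ℝ) 1 :=
  ⟨le_min zero_le_one (by positivity), min_le_left _ _⟩

omit [CompleteSpace X] in
lemma ratio_mul (p y : X) {s : ℝ} (hs : 0 ≤ s) :
    min 1 (s / dist p y) * dist p y = min (dist p y) s := by
  rcases (dist_nonneg (x := p) (y := y)).eq_or_lt with h | h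
  · rw [← h, mul_zero, min_eq_left hs]
  · rw [min_mul_of_nonneg _ _ h.le, one_mul, div_mul_cancel₀ _ h.ne']

lemma dist_left_toward (p y : X) {s : ℝ} (hs : 0 ≤ s) :
    dist p (toward hX p y s) = min (dist p y) s := by
  rw [toward, dist_left_geo hX p y (ratio_mem p y hs), ratio_mul p y hs]

lemma dist_toward_right (p y : X) {s : ℝ} (hs : 0 ≤ s) :
    dist (toward hX p y s) y = dist p y - min (dist p y) s := by
  rw [toward, dist_geo_right hX p y (ratio_mem p y hs), sub_mul, one_mul, ratio_mul p y hs]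

@[simp] lemma toward_zero (p y : X) : toward hX p y 0 = p := by simp [toward]

lemma toward_of_le {p y : X} {s : ℝ} (h : dist p y ≤ s) : toward hX p y s = y := by
  rw [← dist_eq_zero, dist_toward_right hX p y (dist_nonneg.trans h), min_eq_left h, sub_self]

lemma dist_toward_toward (p y : X) {s s' : ℝ} (hs : 0 ≤ s) (hs' : 0 ≤ s') :
    dist (toward hX p y s) (toward hX p y s') ≤ |s - s'| := by
  rw [toward, toward, dist_geo_geo hX p y (ratio_mem p y hs) (ratio_mem p y hs'),
    ← abs_of_nonneg (dist_nonneg (x := p) (y := y)), ← abs_mul, abs_of_nonneg dist_nonneg, sub_mul,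
    ratio_mul p y hs, ratio_mul p y hs']
  exact (abs_min_sub_min_le_max _ _ _ _).trans (by simp)

lemma smul_toward {Γ : Type} [Group Γ] [MulAction Γ X] [IsIsometricSMul Γ X] (g : Γ) (p y : X)
    {s : ℝ} (hs : 0 ≤ s) : g • toward hX p y s = toward hX (g • p) (g • y) s := by
  rw [toward, toward, smul_geo hX g p y (ratio_mem p y hs), dist_smul]

omit [CompleteSpace X] in
lemma abs_dist_sub (p y p' y' : X) : |dist p y - dist p' y'| ≤ dist p p' + dist y y' :=
  dist_dist_dist_le p y p' y'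

lemma dist_toward_le (p y p' y' : X) {s : ℝ} (hs : 0 ≤ s) :
    dist (toward hX p y s) (toward hX p' y' s) ≤ 2 * dist p p' + 3 * dist y y' := by
  have hI := ratio_mem p y hs
  have h1 := dist_geo_two' hX p y p' y' hI (ratio_mem p' y' hs)
  have h2 := abs_dist_sub p y p' y'
  have h3 : |min (dist p y) s - min (dist p' y') s| ≤ dist p p' + dist y y' :=
    (abs_min_sub_min_le_max _ _ _ _).trans (max_le h2 (by simp; positivity))
  rw [← ratio_mul p y hs, ← ratio_mul p' y' hs] at h3
  rw [toward, toward]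
  set t := min 1 (s / dist p y)
  set t' := min 1 (s / dist p' y')
  have h4 : |t - t'| * dist p' y' ≤ (t + 1) * (dist p p' + dist y y') := by
    rw [← abs_of_nonneg (dist_nonneg (x := p') (y := y')), ← abs_mul, abs_le]
    rw [abs_le] at h2 h3
    constructor <;> nlinarith [mul_le_mul_of_nonneg_left h2.1 hI.1,
      mul_le_mul_of_nonneg_left h2.2 hI.1, h3.1, h3.2]
  nlinarith [mul_le_mul_of_nonneg_right hI.2 (dist_nonneg (x := y) (y := y'))]

lemma dist_toward_far (p y p' y' : X) {s : ℝ} (hs : 0 ≤ s) (h : 0 < dist p y) :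
    dist (toward hX p y s) (toward hX p' y' s) ≤
      dist p p' + s * (dist p p' + 2 * dist y y') / dist p y := by
  have hI := ratio_mem p y hs
  have h1 := dist_geo_two' hX p y p' y' hI (ratio_mem p' y' hs)
  have h2 := abs_dist_sub p y p' y'
  have h3 : |min 1 (s / dist p y) - min 1 (s / dist p' y')| * dist p' y' ≤
      s / dist p y * (dist p p' + dist y y') := by
    rcases (dist_nonneg (x := p') (y := y')).eq_or_lt with h' | h'
    · rw [← h', mul_zero]
      positivity
    have h4 : |min 1 (s / dist p y) - min 1 (s / dist p' y')| ≤ |s / dist p y - s / dist p' y'| :=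
      (abs_min_sub_min_le_max _ _ _ _).trans (by simp)
    refine (mul_le_mul_of_nonneg_right h4 h'.le).trans ?_
    rw [← abs_of_pos h', ← abs_mul, abs_of_pos h',
      show (s / dist p y - s / dist p' y') * dist p' y' = s / dist p y * (dist p' y' - dist p y) by
        field_simp, abs_mul, abs_of_nonneg (by positivity), abs_sub_comm]
    exact mul_le_mul_of_nonneg_left h2 (by positivity)
  have h5 := mul_le_mul_of_nonneg_right (min_le_right 1 (s / dist p y))
    (dist_nonneg (x := y) (y := y'))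
  have h6 := mul_nonneg hI.1 (dist_nonneg (x := p) (y := p'))
  have h7 : s * (dist p p' + 2 * dist y y') / dist p y =
      s / dist p y * (dist p p' + dist y y') + s / dist p y * dist y y' := by ring
  rw [toward, toward]
  linarith

/-- `b` minimises the sum of the squared distances to the points `c v`, `v ∈ σ`. -/
def IsBary {ι : Type} (c : ι → X) (σ : Finset ι) (b : X) : Prop :=
  ∀ z, ∑ v ∈ σ, dist (c v) b ^ 2 ≤ ∑ v ∈ σ, dist (c v) z ^ 2

lemma sum_mid {ι : Type} (c : ι → X) (σ : Finset ι) (a b : X) :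
    ∑ v ∈ σ, dist (c v) (geo hX a b (1 / 2)) ^ 2 ≤ (∑ v ∈ σ, dist (c v) a ^ 2 +
      ∑ v ∈ σ, dist (c v) b ^ 2) / 2 - σ.card / 4 * dist a b ^ 2 := by
  have h : ∑ v ∈ σ, dist (c v) (geo hX a b (1 / 2)) ^ 2 ≤
      ∑ v ∈ σ, ((dist (c v) a ^ 2 + dist (c v) b ^ 2) / 2 - dist a b ^ 2 / 4) :=
    Finset.sum_le_sum fun v _ => by linarith [geo_sq hX a b (c v) half_mem]
  rw [Finset.sum_sub_distrib, ← Finset.sum_div, Finset.sum_add_distrib, Finset.sum_const,
    nsmul_eq_mul] at h
  linarith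

include hX in
theorem exists_isBary {ι : Type} (c : ι → X) {σ : Finset ι} (hσ : σ.Nonempty) :
    ∃ b, IsBary c σ b := by
  have h0 : (0 : ℝ) < σ.card := by exact_mod_cast hσ.card_pos
  obtain ⟨p, -, h⟩ := exists_min isClosed_univ ⟨c hσ.choose, trivial⟩
    (f := fun z => ∑ v ∈ σ, dist (c v) z ^ 2) (by fun_prop) (fun z _ => by positivity)
    (c := σ.card / 4) (by positivity) fun a _ b _ => ⟨_, trivial, sum_mid hX c σ a b⟩
  exact ⟨p, fun z => h z trivial⟩

include hX in
theorem IsBary.unique {ι : Type} {c : ι → X} {σ : Finset ι} (hσ : σ.Nonempty) {b b' : X}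
    (h : IsBary c σ b) (h' : IsBary c σ b') : b = b' := by
  have h0 : (0 : ℝ) < σ.card := by exact_mod_cast hσ.card_pos
  have h1 : σ.card / 4 * dist b b' ^ 2 ≤ σ.card / 4 * 0 ^ 2 := by
    linarith [sum_mid hX c σ b b', h (geo hX b b' (1 / 2)), h' (geo hX b b' (1 / 2))]
  exact dist_le_zero.1 (le_of_sq le_rfl (le_of_mul_le_mul_left h1 (by positivity)))

include hX in
theorem IsBary.dist_le {ι : Type} {c : ι → X} {σ : Finset ι} (hσ : σ.Nonempty) {b z : X} {R : ℝ}
    (h : IsBary c σ b) (hz : z ∈ Lens c R σ) : dist z b ≤ 2 * R := by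
  have h0 : (0 : ℝ) < σ.card := by exact_mod_cast hσ.card_pos
  have hR : 0 ≤ R := dist_nonneg.trans (hz _ hσ.choose_spec)
  have h1 : ∑ v ∈ σ, dist (c v) z ^ 2 ≤ σ.card * R ^ 2 := by
    rw [← nsmul_eq_mul]
    exact Finset.sum_le_card_nsmul _ _ _ fun v hv =>
      pow_le_pow_left₀ dist_nonneg (dist_comm z (c v) ▸ hz v hv) 2
  have h2 : 0 ≤ ∑ v ∈ σ, dist (c v) b ^ 2 := by positivity
  have h3 : σ.card / 4 * dist z b ^ 2 ≤ σ.card / 4 * (2 * R) ^ 2 := by
    nlinarith [sum_mid hX c σ z b, h (geo hX z b (1 / 2)), sq_nonneg R]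
  exact le_of_sq (by positivity) (le_of_mul_le_mul_left h3 (by positivity))

omit [CompleteSpace X] in
lemma IsBary.smul {Γ : Type} [Group Γ] [DecidableEq Γ] [MulAction Γ X] [IsIsometricSMul Γ X]
    {x b : X} {σ : Finset Γ} (h : IsBary (fun v : Γ => v • x) σ b) (g : Γ) :
    IsBary (fun v : Γ => v • x) (σ.image (g * ·)) (g • b) := by
  intro z
  have h1 := h (g⁻¹ • z)
  rw [Finset.sum_image fun _ _ _ _ h => mul_left_cancel h,
    Finset.sum_image fun _ _ _ _ h => mul_left_cancel h]
  simp only [mul_smul, dist_smul]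
  refine h1.trans (le_of_eq (Finset.sum_congr rfl fun v _ => ?_))
  rw [← dist_smul g, smul_inv_smul]

omit [CompleteSpace X] in
lemma smul_mem_lens {Γ : Type} [Group Γ] [DecidableEq Γ] [MulAction Γ X] [IsIsometricSMul Γ X]
    {x z : X} {R : ℝ} {σ : Finset Γ} (g : Γ) :
    g • z ∈ Lens (fun v : Γ => v • x) R (σ.image (g * ·)) ↔ z ∈ Lens (fun v : Γ => v • x) R σ := by
  simp only [Lens, mem_ofPred_eq, Finset.forall_mem_image, mul_smul, dist_smul]

omit [CompleteSpace X] in
lemma IsProj.smul {Γ : Type} [Group Γ] [DecidableEq Γ] [MulAction Γ X] [IsIsometricSMul Γ X]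
    {x y p : X} {R : ℝ} {σ : Finset Γ} (h : IsProj (Lens (fun v : Γ => v • x) R σ) y p) (g : Γ) :
    IsProj (Lens (fun v : Γ => v • x) R (σ.image (g * ·))) (g • y) (g • p) := by
  refine ⟨(smul_mem_lens g).2 h.1, fun z hz => ?_⟩
  rw [← smul_inv_smul g z] at hz ⊢
  rw [dist_smul, dist_smul]
  exact h.2 _ ((smul_mem_lens g).1 hz)

end Pool.Agent.Lib.CAT0
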